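import Pool.Agent.Helper63.PG.Alg

/-! # Project PG (MP_cde131_lc), module GME -/

set_option autoImplicit false

namespace Pool.Agent.Helper20.PG

open Pool.Agent.Helper63.PG Pool.Agent.Helper63.OC Pool.Agent.Helper24.OCM

theorem hGME {K k : ℕ} {G : SimpleGraph ℕ} {α : Type} (c0 : ℕ → α)
    (hp : ∀ u v, (Gm K k G).Adj u v → c0 u ≠ c0 v) (hO : OneLayer)
    (hD : ∀ u v, (G3 K k G).Adj u v →
      hasp (H1 K G) u ∧ hasp (H1 K G) v ∧ anc K G u = anc K G v ∧ tt K G u = tt K G v ∧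
      lay G (anc K G u) (tt K G u) u = lay G (anc K G v) (tt K G v) v ∧
      cc k G (anc K G u) (tt K G u) u = cc k G (anc K G v) (tt K G v) v)
    (hL : ∀ x τ i c, Lay G {w | w ≤ τ ∧ nr G τ x w i}
      {w | w ≤ τ ∧ nr G τ x w (i + 1) ∧ ¬ nr G τ x w i ∧ kc k G τ w = c}
      (UU K k G x τ (i + 1) c))
    (hR : ∀ x τ c, (∀ u ∈ UU K k G x τ 0 c, G.Adj x u) ∧
      (∀ u ∈ UU K k G x τ 0 c, ∀ v ∈ UU K k G x τ 0 c, lab K k G u = lab K k G v →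
        ((Gm K k G).Adj u v ↔ G.Adj u v)) ∧
      (∀ i, ∀ u ∈ UU K k G x τ (i + 1) c, ∀ v ∈ UU K k G x τ (i + 1) c,
        lab K k G u = lab K k G v →
        ((Gm K k G).Adj u v ↔
          (Gam G {w | w ≤ τ ∧ nr G τ x w (i + 1) ∧ ¬ nr G τ x w i ∧ kc k G τ w = c}
            (UU K k G x τ (i + 1) c)).Adj u v))) :
    IsMeyniel (mono (G3 K k G) c0) := by
  intro L hL1 h5 f hf hadj
  have hne : NeZero L := ⟨by rintro rfl; exact absurd hL1 (by decide)⟩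
  have h01 : ∀ i : ZMod L, (G3 K k G).Adj (f i) (f (i + 1)) := fun i => (hadj i).1
  obtain ⟨x, hx⟩ : ∃ x, anc K G (f 0) = x := ⟨_, rfl⟩
  obtain ⟨τ, hτ⟩ : ∃ τ, tt K G (f 0) = τ := ⟨_, rfl⟩
  obtain ⟨j, hj⟩ : ∃ j, lay G x τ (f 0) = j := ⟨_, rfl⟩
  obtain ⟨c, hcc⟩ : ∃ c, cc k G x τ (f 0) = c := ⟨_, rfl⟩
  have hnat : ∀ n : ℕ, f (n : ZMod L) ∈ UU K k G x τ j c ∧
      lab K k G (f (n : ZMod L)) = lab K k G (f 0) ∧ c0 (f (n : ZMod L)) = c0 (f 0) := by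
    intro n
    induction n with
    | zero =>
      have h1 := hD _ _ (h01 0)
      exact ⟨by rw [Nat.cast_zero]; exact ⟨h1.1, hx, hτ, hj, hcc⟩, by simp, by simp⟩
    | succ n ih =>
      obtain ⟨⟨i1, i2, i3, i4, i5⟩, i6, i7⟩ := ih
      have h1 := hD _ _ (h01 (n : ZMod L))
      obtain ⟨d1, d2, d3, d4, d5, d6⟩ := h1
      have h2 := (h01 (n : ZMod L)).2
      have h3 := (hadj (n : ZMod L)).2
      push_cast
      rw [← d3, ← d4, i2, i3] at d5 d6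
      refine ⟨⟨d2, by rw [← d3, i2], by rw [← d4, i3], by rw [← d5, i4], by rw [← d6, i5]⟩, ?_, ?_⟩
      · rw [← h2, i6]
      · rw [← h3, i7]
  have hall : ∀ i : ZMod L, f i ∈ UU K k G x τ j c ∧ lab K k G (f i) = lab K k G (f 0) ∧
      c0 (f i) = c0 (f 0) := by
    intro i
    have := hnat i.val
    rwa [ZMod.natCast_zmod_val] at this
  rcases j with _ | i
  · exfalso
    have h1 := ((hR x τ c).2.1 (f 0) (hall 0).1 (f (0 + 1)) (hall (0 + 1)).1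
      (hall (0 + 1)).2.1.symm).2 (h01 0).1
    exact hp _ _ h1 (hall (0 + 1)).2.2.symm
  · obtain ⟨a, b, a', b', ⟨h1, h2, h3⟩, ⟨h4, h5, h6⟩, h7⟩ :=
      (hO G _ _ _ (hL x τ i c)).2.2
        {v | v ∈ UU K k G x τ (i + 1) c ∧ lab K k G v = lab K k G (f 0) ∧ c0 v = c0 (f 0)}
        (fun v hv => hv.1) (by
          rintro u ⟨hu1, hu2, hu3⟩ v ⟨hv1, hv2, hv3⟩ huv hcm
          have h8 := ((hR x τ c).2.2 i u hu1 v hv1 (hu2.trans hv2.symm)).2 ⟨hu1, hv1, huv, hcm⟩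
          exact hp _ _ h8 (hu3.trans hv3.symm)) L hL1 h5 f hf hall (fun i => (h01 i).1)
    exact ⟨a, b, a', b',
      ⟨⟨⟨h1, (hall a).2.1.trans (hall b).2.1.symm⟩, (hall a).2.2.trans (hall b).2.2.symm⟩, h2, h3⟩,
      ⟨⟨⟨h4, (hall a').2.1.trans (hall b').2.1.symm⟩,
        (hall a').2.2.trans (hall b').2.2.symm⟩, h5, h6⟩, h7⟩

end Pool.Agent.Helper20.PG
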